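import Pool.Agent.Lib.MP_2794d1_ag.GD.C3

/-! Andre-Oort for integral variations of Hodge structure on an arbitrary curve: the number of CM points of
complexity at most `h` grows like a power of `h` if and only if the variation is of Shimura type (with dominant
period map), and is at most polylogarithmic otherwise. -/

namespace Pool.Agent.Results.MP_2794d1_ag.AllCurves

open MP2794d1

/-- Let `V` be a polarised variation of integral Hodge structure on `S = Δ \ ℍ`, a compact Riemann
surface minus finitely many (possibly zero) points, and let `N(h)` be the number of points of `S` which
are CM points of complexity at most `h`.  The complexity of a CM point `z` is the smallest Hodge norm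
of an endomorphism with separable characteristic polynomial of the integral Hodge structure `V_z`.

(1) Either `V` is of Shimura type and the period map is dominant (the generic Mumford-Tate Lie algebra
is of Hodge type `(-1,1), (0,0), (1,-1)` at every point, its part of type `(-1,1)` has dimension at
most one, and it vanishes if the period map is constant), or `N(h) ≤ C * (log h) ^ 5` for all `h ≥ 2`.

(2) If the period map is not constant, then `V` is of Shimura type if and only if there are `κ > 0` and
`h₀` such that `N(h) ≥ h ^ κ` for all `h ≥ h₀`. -/
theorem result {n : ℕ} (V : PolVHS n) (hΔ : FiniteType V.grp) :
    (IsShimuraCurve V ∨ GD.FewCM V) ∧ (¬ GD.Const V → (IsShimuraCurve V ↔ GD.ManyCM V)) :=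
  GD.curve_dichotomy V hΔ

end Pool.Agent.Results.MP_2794d1_ag.AllCurves
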