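import Pool.Agent.Lib.MP_2794d1_ag.BW.Main

/-! Andre-Oort for integral variations of Hodge structure over a base of arbitrary dimension: CM
points near the boundary. -/

namespace Pool.Agent.Results.MP_2794d1_ag.FarFromBoundary

open MP2794d1 MP2794d1.AH MP2794d1.BW
open scoped ContDiff Manifold

/-- Let `V` be a polarised variation of integral Hodge structure of weight `w` on `S = G \ X`, where
`X` is a connected complex manifold (for instance the universal cover of `S`, with `G = π₁(S)`), and
let `C` be a chart at the boundary: `C.c z u t` is a point of `X` depending holomorphically on `z` and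
`u j` (`j < k`) in the upper half plane and on `t` in `C.B` (for instance, `z` and the `u j` are
logarithms of the coordinates `q = exp (2 π i z)`, `q_j = exp (2 π i u j)` in a polydisc around a point
of a normal crossing boundary `q q_0 ... q_{k-1} = 0`), the translation `z ↦ z + 1` is the action of
`C.g`, with unipotent monodromy `exp N`, and `N ≠ 0`.  Let `T ⊆ C.B` be compact.  Then there are
`δ > 0` and `Y` such that every CM point `x = C.c z u t` with `t ∈ T`, `|Re z| ≤ 1`, `|Re u j| ≤ 1`,
`Im u j ≥ 1`, `Im z > Y`, `∏ Im u j ≤ exp (δ Im z)` (true if `z` has the largest imaginary part) and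
every endomorphism `A` of the integral Hodge structure `V_x` with separable characteristic polynomial
and Hodge norm `trace (A A') ^ (1/2) ≤ exp (δ Im z)` satisfy
* `N` maps `F^p` into `F^(p-1)` at `x`, for all `p`;
* `x` is not wide: some pair of distinct eigenvalues of `A` is conjugate over the rational numbers only
  to pairs whose eigenvectors have Hodge levels which differ by at most one;
* if the Galois group of the characteristic polynomial of `A` is as transitive as a Weyl group
  (`IsWeyl`), then at every point of `X` we have `F^p = 0` for `2 p > w + 2` and `dim F^p ≤ 1` for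
  `2 p = w + 2`, and the generic Mumford-Tate Lie algebra has only the Hodge types
  `(-1,1), (0,0), (1,-1)`: the Mumford-Tate domain is a Shimura datum. -/
theorem result {n m k l : ℕ} {X G : Type} [TopologicalSpace X] [ChartedSpace (Fin m → ℂ) X]
    [IsManifold 𝓘(ℂ, Fin m → ℂ) ω X] [ConnectedSpace X] [Group G] [MulAction G X]
    (V : MVHS n m X G) (C : BChart V k l) (hN : C.N ≠ 0) (T : Set (Fin l → ℂ)) (hT : IsCompact T)
    (hTB : T ⊆ C.B) : ∃ δ Y : ℝ, 0 < δ ∧
      ∀ (z : ℂ) (u : Fin k → ℂ) (t : Fin l → ℂ), t ∈ T → |z.re| ≤ 1 → Y < z.im →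
      (∀ j, |(u j).re| ≤ 1 ∧ 1 ≤ (u j).im) → ∏ j, (u j).im ≤ Real.exp (δ * z.im) →
      ∀ A : Matrix (Fin n) (Fin n) ℤ, IsEnd V (C.c z u t) A (Real.exp (δ * z.im)) →
        (∀ p, ∀ y ∈ V.F p (C.c z u t), (cm C.N).mulVec y ∈ V.F (p - 1) (C.c z u t)) ∧
        ¬ IsWide V (C.c z u t) A ∧
        (IsWeyl A → IsSV V ∧ (∀ (x : X) (p : ℤ), V.wt + 2 < 2 * p → V.F p x = ⊥) ∧
          ∀ (x : X) (p : ℤ), V.wt + 2 = 2 * p → Module.finrank ℂ (V.F p x) ≤ 1) :=
  main V C hN T hT hTB

end Pool.Agent.Results.MP_2794d1_ag.FarFromBoundary
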