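import Pool.Agent.Lib.MP_2794d1_ag.DL.Main

/-! Andre-Oort for integral variations of Hodge structure on a curve: one CM point close to a cusp. -/

namespace Pool.Agent.Results.MP_2794d1_ag.OneCMPoint

open MP2794d1

/-- Let `V` be a polarised variation of integral Hodge structure on `Δ \ ℍ`, a compact Riemann
surface minus finitely many points, with a cusp at `i∞` where the local monodromy is `exp N`, `N`
nilpotent and not zero, and let `Fl` be the limit Hodge filtration, the limit of `exp (-zN) F_z`.
There are `δ > 0` and `Y` such that a single CM point `z` with `Im z > Y` and complexity at most
`exp (δ * Im z)` forces `V` to be of Shimura type, in the following sense.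

The rational span `s = monSpan V N` of the conjugates `ρ(g) N ρ(g)⁻¹` (the logarithms of the
monodromy at all translates of the cusp), which is a perfect ideal of the generic Mumford-Tate Lie
algebra `m = genericMT V`, has only the Hodge types `(-1,1), (0,0), (1,-1)` at every point, and so
has `m` itself if it is simple modulo its centre.

If moreover the limit satisfies a Diophantine condition (for some `w` the flag `exp (wN) Fl` is
defined over `ℚ[x]`, `x` a tuple of algebraic numbers or of numbers with polynomial Diophantine
bounds), then in any case `m` has only these Hodge types at every point, its part of type `(-1,1)` is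
the line spanned by the image of `N`, and this line is not zero: the Mumford-Tate domain is a half
plane and the period map is not constant.

The complexity of a CM point `z` is the smallest Hodge norm of an endomorphism with separable
characteristic polynomial of the integral Hodge structure `V_z`. -/
theorem result {n : ℕ} (V : PolVHS n) (hΔ : FiniteType V.grp) (c : UCusp V) (hN : c.N ≠ 0) :
    ∃ Fl : ℤ → Submodule ℂ (Fin n → ℂ), IsLimitFiltration V c.N Fl ∧
      ∃ δ : ℝ, 0 < δ ∧ ∃ Y : ℝ, ∀ (z : ℂ) (H : ℝ), Y < z.im → 0 ≤ H → IsCMc V z H →
        H ≤ Real.exp (δ * z.im) →
        OC.ShimuraIdeal V c.N ∧ (IsDioFlag c.N Fl → IsShimuraLine V c.N) :=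
  main_flag V hΔ c hN

end Pool.Agent.Results.MP_2794d1_ag.OneCMPoint
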