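import Pool.Agent.Lib.MP_2794d1_ag.GD.F3

/-! Andre-Oort for integral variations of Hodge structure over a base of arbitrary dimension: the
conclusion of the conjecture is equivalent to power growth of the set of CM points, and otherwise the
CM points of bounded complexity lie on hypersurfaces of polylogarithmic degree. -/

namespace Pool.Agent.Results.MP_2794d1_ag.WholeVariety

open MP2794d1 MP2794d1.AH MP2794d1.WV MP2794d1.GD
open scoped ContDiff Manifold

/-- Let `V` be a polarised variation of integral Hodge structure on `S = G \ X`, where `X` is a
connected complex manifold of dimension `m` (for instance the universal cover of `S`, with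
`G = π₁(S)`), and suppose that at every point of `X` the tangent space is spanned by the velocities
of maps `Γ \ ℍ → S` from compact Riemann surfaces minus finitely many points (`CurvesSpan`; this
holds for every smooth quasi-projective variety `S`).  Let `ρ` be the maximal rank of the
differential of the period map and `D` the dimension of the Zariski closure over `ℚ` of the image of
`X` under the period map in the flag variety (in Pluecker coordinates).  The complexity of a CM point
`x` is the smallest Hodge norm of an endomorphism with separable characteristic polynomial of the
integral Hodge structure `V_x`.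

(A) `V` is of Shimura type with dominant period map if and only if it has power growth: there is
`κ > 0` such that for every nonempty open subset `U` of `X` and all sufficiently large `h` any form
(with complex coefficients) of degree at most `h ^ κ` in the Pluecker coordinates, which vanishes at all
CM points of complexity at most `h` in `U`, vanishes on the whole period image.

(B) Otherwise `V` has no CM point, or `ρ < D` and the CM points of complexity at most `h` in `K` lie on
ONE hypersurface which does not contain the period image, of degree at most
`C (log h) ^ (ρ / (D - ρ))` for compact `K`, and at most `C (log h) ^ ((l + k) / (D - l))` if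
`K = Cov ch` is covered by finitely many charts at the boundary (products of `k` or fewer punctured
discs with infinite local monodromy and discs, of dimension `l < D`; finitely many charts of dimension
`m` cover a smooth quasi-projective `S`, if `V` has been extended over the boundary divisors with finite
local monodromy).

(C) Put `a = b = ρ` for compact `K`, and `a = l`, `b = l + k` for `K = Cov ch`.  There is `C` such that
for all `h ≥ 2` and `d ≥ 1` any family of more than `C d ^ a (log h) ^ b` monomials of degree `d` in the
Pluecker coordinates satisfies a non-trivial linear relation with integral coefficients at most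
`exp (C d log h)` at all CM points of complexity at most `h` in `K`. -/
theorem result {n m : ℕ} {X G : Type} [TopologicalSpace X] [ChartedSpace (Fin m → ℂ) X]
    [IsManifold 𝓘(ℂ, Fin m → ℂ) ω X] [ConnectedSpace X] [Group G] [MulAction G X]
    (V : MVHS n m X G) (hC : CurvesSpan m X G) :
    ∃ ρ D : ℕ, IsGreatest (Set.range (rankX V)) ρ ∧ IsGreatest {D | IndX V D} D ∧
    (∀ K : Set X, IsCompact K → HilbertBd V (CMin V K) ρ ρ) ∧
    (∀ (l k J : ℕ) (ch : Fin J → Chart V l), (∀ j, (ch j).I.card ≤ k) →
      HilbertBd V (CMin V (Cov ch)) l (l + k)) ∧
    (IsShimuraDom V ρ ↔ PowerGrowth V) ∧
    (PowerGrowth V ∨ (∀ (x : X) (h : ℝ), ¬ IsCMX V x h) ∨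
    (ρ < D ∧
      (∀ K : Set X, IsCompact K →
        HypersurfaceBd V (CMin V K) ((ρ : ℝ) / ((D : ℝ) - ρ)) ((D : ℝ) / ((D : ℝ) - ρ))) ∧
      ∀ (l k J : ℕ) (ch : Fin J → Chart V l), l < D → (∀ j, (ch j).I.card ≤ k) →
        HypersurfaceBd V (CMin V (Cov ch)) (((l : ℝ) + k) / ((D : ℝ) - l))
          (((D : ℝ) + k) / ((D : ℝ) - l)))) :=
  dichotomy V hC

end Pool.Agent.Results.MP_2794d1_ag.WholeVariety
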